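import Pool.Agent.W570.AV.A5
import Pool.Agent.W570.NQ.L1

/-!
# The non-symmetric Mahler inequality on average over all positions

For every convex body `K` of `ℝⁿ` the mean of `1 / M_∞(K - z)` over `z ∈ K` is at most
`(n!)² / (2n + 1)!`, its value for the simplex; the same bound holds for `1 / M_p(K - z)` for every
`p > 0`.  More generally, for every weight `φ ≥ 0` the mean of `φ(z) / M_∞(K - z)` over `z ∈ K` is at
most `∫_0^1 (s(1-s))ⁿ E φ(s u + (1-s) v) ds`, where `u`, `v` are independent and uniform in `K`, with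
equality for the simplex and all weights.  Pointwise, `M_∞(K - z)` is at least `vol(K)` divided by
the volume of the set of pairs `(y, s)` with `z + y/s ∈ K` and `z - y/(1-s) ∈ K`.
-/

set_option autoImplicit false

noncomputable section

open MeasureTheory
open scoped ENNReal Pointwise

namespace Pool.Agent.Results.MP_5f4cdd_gt.AveragedPositions

/-- convex bodies in `ℝⁿ` (in any position) -/
def Body {n : ℕ} (K : Set (Fin n → ℝ)) : Prop := Convex ℝ K ∧ IsCompact K ∧ (interior K).Nonempty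

/-- The classical Mahler volume `M_∞(K) = vol(K) ∫ exp(-h_K(y)) dy` (the case `p = ∞`), where
`h_K(y) = sup_{x ∈ K} ⟨x, y⟩`. -/
def mahlerInf {n : ℕ} (K : Set (Fin n → ℝ)) : ℝ≥0∞ :=
  volume K * ∫⁻ y : Fin n → ℝ, ENNReal.ofReal
    (Real.exp (-(sSup ((fun x : Fin n → ℝ => ∑ i, x i * y i) '' K))))

/-- The `L^p`-Mahler volume `M_p(K) = vol(K) ∫ exp(-h_{p,K}(y)) dy` for `0 < p < ∞`, where
`exp(-h_{p,K}(y)) = ((1/vol K) ∫_K exp(p⟨x,y⟩) dx)^(-1/p)`. -/
def mahlerVolume {n : ℕ} (p : ℝ) (K : Set (Fin n → ℝ)) : ℝ≥0∞ :=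
  volume K * ∫⁻ y : Fin n → ℝ, ENNReal.ofReal
    (((∫ x in K, Real.exp (p * ∑ i, x i * y i)) / (volume K).toReal) ^ (-(1 / p)))

/-- the standard simplex `Δ_n` -/
def simplex (n : ℕ) : Set (Fin n → ℝ) := {z | (∀ i, 0 ≤ z i) ∧ ∑ i, z i ≤ 1}

/-- the translate `K - z` -/
def shift {n : ℕ} (K : Set (Fin n → ℝ)) (z : Fin n → ℝ) : Set (Fin n → ℝ) := (fun x => x - z) '' K

/-- the polar body of `K` with respect to the point `z` -/
def polarBody {n : ℕ} (K : Set (Fin n → ℝ)) (z : Fin n → ℝ) : Set (Fin n → ℝ) :=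
  {y | ∀ x ∈ K, ∑ i, (x i - z i) * y i ≤ 1}

/-- the mean of the function `F` over `K` -/
def meanOver {n : ℕ} (K : Set (Fin n → ℝ)) (F : (Fin n → ℝ) → ℝ≥0∞) : ℝ≥0∞ :=
  (volume K)⁻¹ * ∫⁻ z in K, F z

/-- `∫_0^1 (s(1-s))ⁿ E φ(s u + (1-s) v) ds` for independent `u`, `v` with the uniform distribution
in `K` -/
def segmentMean {n : ℕ} (φ : (Fin n → ℝ) → ℝ≥0∞) (K : Set (Fin n → ℝ)) : ℝ≥0∞ :=
  ∫⁻ s in Set.Ioo (0:ℝ) 1, ENNReal.ofReal ((s * (1 - s)) ^ n) *
    meanOver K fun u => meanOver K fun v => φ (s • u + (1 - s) • v)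

/-- the volume of the set of pairs `(y, s)`, `0 < s < 1`, with `z + y/s ∈ K` and
`z - y/(1-s) ∈ K` -/
def chordVolume {n : ℕ} (K : Set (Fin n → ℝ)) (z : Fin n → ℝ) : ℝ≥0∞ :=
  ∫⁻ y : Fin n → ℝ, volume {s : ℝ | s ∈ Set.Ioo (0:ℝ) 1 ∧ z + s⁻¹ • y ∈ K ∧
    z - (1 - s)⁻¹ • y ∈ K}

open Pool.Agent.W570.AV (mah tr sx)

variable {n : ℕ}

lemma mean_eq (φ : (Fin n → ℝ) → ℝ≥0∞) (K : Set (Fin n → ℝ)) :
    meanOver K (fun z => φ z * (mahlerInf (shift K z))⁻¹) = Pool.Agent.W570.AV.mean φ K := rfl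

lemma seg_eq (φ : (Fin n → ℝ) → ℝ≥0∞) (K : Set (Fin n → ℝ)) :
    segmentMean φ K = Pool.Agent.W570.AV.seg φ K := rfl

lemma cho_eq (K : Set (Fin n → ℝ)) (z : Fin n → ℝ) :
    chordVolume K z = Pool.Agent.W570.AV.cho K z := rfl

lemma mean_one (K : Set (Fin n → ℝ)) :
    meanOver K (fun z => (mahlerInf (shift K z))⁻¹) = Pool.Agent.W570.AV.mean (fun _ => 1) K := by
  rw [← mean_eq]
  simp only [one_mul]

lemma vol_ne {K : Set (Fin n → ℝ)} (hK : Body K) : volume K ≠ 0 := by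
  obtain ⟨z, hz⟩ := hK.2.2
  exact ((isOpen_interior.measure_pos volume ⟨z, hz⟩).trans_le (measure_mono interior_subset)).ne'

/-- **The non-symmetric Mahler inequality on average over all positions.** -/
theorem result :
    -- the mean of the inverse Mahler volumes over all positions, for all `p ∈ (0, ∞]`
    (∀ (n : ℕ) (K : Set (Fin n → ℝ)), Body K →
      meanOver K (fun z => (mahlerInf (shift K z))⁻¹) ≤
        meanOver (simplex n) (fun x => (mahlerInf (shift (simplex n) x))⁻¹) ∧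
      ∀ p : ℝ, 0 < p → meanOver K (fun z => (mahlerVolume p (shift K z))⁻¹) ≤
        meanOver (simplex n) (fun x => (mahlerInf (shift (simplex n) x))⁻¹)) ∧
    -- the value for the simplex
    (∀ n : ℕ, meanOver (simplex n) (fun x => (mahlerInf (shift (simplex n) x))⁻¹) =
      ENNReal.ofReal ((n.factorial : ℝ) ^ 2 / (2 * n + 1).factorial)) ∧
    -- all weights, with equality for the simplex
    (∀ (n : ℕ) (φ : (Fin n → ℝ) → ℝ≥0∞), Measurable φ →
      (∀ K : Set (Fin n → ℝ), Body K →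
        meanOver K (fun z => φ z * (mahlerInf (shift K z))⁻¹) ≤ segmentMean φ K) ∧
      meanOver (simplex n) (fun x => φ x * (mahlerInf (shift (simplex n) x))⁻¹) =
        segmentMean φ (simplex n)) ∧
    -- the pointwise inequality, also in terms of the polar bodies
    (∀ (n : ℕ) (K : Set (Fin n → ℝ)), Body K → ∀ z ∈ interior K,
      (mahlerInf (shift K z))⁻¹ ≤ (volume K)⁻¹ * chordVolume K z ∧
      1 ≤ volume K * volume (polarBody K z) *
        (n.factorial * ((volume K)⁻¹ * chordVolume K z))) := by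
  have hval : ∀ n : ℕ, meanOver (simplex n) (fun x => (mahlerInf (shift (simplex n) x))⁻¹) =
      ENNReal.ofReal ((n.factorial : ℝ) ^ 2 / (2 * n + 1).factorial) := by
    intro n
    rw [mean_one]
    exact Pool.Agent.W570.AV.mean_sx
  have hinf : ∀ (n : ℕ) (K : Set (Fin n → ℝ)), Body K →
      meanOver K (fun z => (mahlerInf (shift K z))⁻¹) ≤
        meanOver (simplex n) (fun x => (mahlerInf (shift (simplex n) x))⁻¹) := by
    intro n K hK
    rw [hval, mean_one, ← Pool.Agent.W570.AV.seg_one hK.1 hK.2.1 hK.2.2]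
    exact Pool.Agent.W570.AV.mean_le hK.1 hK.2.1 hK.2.2 _ measurable_const
  refine ⟨fun n K hK => ⟨hinf n K hK, fun p hp => ?_⟩, hval, fun n φ hφ => ⟨fun K hK => ?_, ?_⟩,
    fun n K hK z hz => ⟨?_, ?_⟩⟩
  · refine le_trans ?_ (hinf n K hK)
    refine mul_le_mul_right (lintegral_mono fun z => ?_) _
    refine ENNReal.inv_le_inv.2 ?_
    have hk : IsCompact (shift K z) := hK.2.1.image (by fun_prop)
    have h0 : volume (shift K z) ≠ 0 := by
      rw [show shift K z = tr z K from rfl, Pool.Agent.W570.AV.vol_tr]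
      exact vol_ne hK
    exact Pool.Agent.W570.NQ.mah_le_mahp hk h0 hp
  · exact Pool.Agent.W570.AV.mean_le hK.1 hK.2.1 hK.2.2 φ hφ
  · exact Pool.Agent.W570.AV.mean_sx_w φ hφ
  · exact Pool.Agent.W570.AV.point hK.1 hK.2.1 hz
  · exact Pool.Agent.W570.AV.vpoint hK.1 hK.2.1 hz

end Pool.Agent.Results.MP_5f4cdd_gt.AveragedPositions
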