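import Pool.Agent.TH649.LOC.Eq
import Pool.Agent.TH537.EQ.Main
import Pool.Agent.TH808.Base

/-!
# The case `p = ∞`: the Mahler conjecture for all convex bodies, with the cases of equality

For every convex body `K` of `ℝⁿ`, in every position, `M_∞(K) ≥ inf_x M_∞(Δ_n - x) =
(n + 1)^(n + 1) / n!`, with equality if and only if `K` is a simplex with centroid at the origin.
Equivalently, `vol(K) vol(K^z) ≥ (n + 1)^(n + 1) / (n!)²` for all interior points `z`, with equality
if and only if `K` is a simplex and `z` is its centroid.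
-/

set_option autoImplicit false

noncomputable section

open MeasureTheory
open scoped ENNReal Pointwise

namespace Pool.Agent.Results.MP_5f4cdd_gt.ClassicalMahlerEquality

/-- convex bodies in `ℝⁿ` (in any position) -/
def Body {n : ℕ} (K : Set (Fin n → ℝ)) : Prop := Convex ℝ K ∧ IsCompact K ∧ (interior K).Nonempty

/-- The classical Mahler volume `M_∞(K) = vol(K) ∫ exp(-h_K(y)) dy` (the case `p = ∞`), where
`h_K(y) = sup_{x ∈ K} ⟨x, y⟩`. -/
def mahlerInf {n : ℕ} (K : Set (Fin n → ℝ)) : ℝ≥0∞ :=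
  volume K * ∫⁻ y : Fin n → ℝ, ENNReal.ofReal
    (Real.exp (-(sSup ((fun x : Fin n → ℝ => ∑ i, x i * y i) '' K))))

/-- the standard simplex `Δ_n` -/
def simplex (n : ℕ) : Set (Fin n → ℝ) := {z | (∀ i, 0 ≤ z i) ∧ ∑ i, z i ≤ 1}

/-- the infimum of `M_∞(Δ_n - x)` over `x ∈ Δ_n` -/
def simplexInf (n : ℕ) : ℝ≥0∞ :=
  ⨅ x ∈ simplex n, mahlerInf ((fun z : Fin n → ℝ => z - x) '' simplex n)

/-- `K` is a simplex with centroid `z`: the convex hull of `n + 1` affinely independent points
whose sum is `(n + 1) z` -/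
def SimplexWithCentroid {n : ℕ} (K : Set (Fin n → ℝ)) (z : Fin n → ℝ) : Prop :=
  ∃ v : Fin (n + 1) → (Fin n → ℝ), AffineIndependent ℝ v ∧ ∑ i, v i = ((n : ℝ) + 1) • z ∧
    K = convexHull ℝ (Set.range v)

/-- the polar body of `K` with respect to the point `z` -/
def polarBody {n : ℕ} (K : Set (Fin n → ℝ)) (z : Fin n → ℝ) : Set (Fin n → ℝ) :=
  {y | ∀ x ∈ K, ∑ i, (x i - z i) * y i ≤ 1}

open Pool.Agent.W570.AV (mah tr sx)
open Pool.Agent.H131R5.LM (Sn)

variable {n : ℕ}

lemma mahlerInf_eq (K : Set (Fin n → ℝ)) : mahlerInf K = mah K := rfl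

lemma simplex_eq : simplex n = sx n 1 := rfl

lemma Sn_eq : Sn n = tr (Pool.Agent.W570.NQ.cc n) (sx n 1) :=
  (Pool.Agent.H131R5.LM.image_Dn (n := n)).symm

lemma tr_zero (K : Set (Fin n → ℝ)) : tr 0 K = K := by
  unfold Pool.Agent.W570.AV.tr
  simp

lemma body_tr {K : Set (Fin n → ℝ)} (hK : Body K) (z : Fin n → ℝ) : Body (tr z K) := by
  refine ⟨?_, hK.2.1.image (by fun_prop), ?_⟩
  · have h1 := hK.1.translate (-z)
    have h2 : (fun x => -z + x) '' K = tr z K := by
      unfold Pool.Agent.W570.AV.tr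
      refine Set.image_congr fun x _ => ?_
      abel
    rwa [h2] at h1
  · rw [Pool.Agent.TH808.tr_interior]
    exact hK.2.2.image _

/-- linear invariance -/
lemma mah_image (A : (Fin n → ℝ) ≃ₗ[ℝ] (Fin n → ℝ)) {K : Set (Fin n → ℝ)} (hc : IsCompact K) :
    mah (A '' K) = mah K := by
  set T := Pool.Agent.H131R5.LC.tr (A : (Fin n → ℝ) →ₗ[ℝ] (Fin n → ℝ)) with hT
  have hdet : LinearMap.det (A : (Fin n → ℝ) →ₗ[ℝ] (Fin n → ℝ)) ≠ 0 :=
    (LinearEquiv.isUnit_det' A).ne_zero
  have hdetT : LinearMap.det T ≠ 0 := by rw [hT, Pool.Agent.H131R5.LC.det_tr]; exact hdet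
  set G : (Fin n → ℝ) → ℝ≥0∞ := fun y => ENNReal.ofReal
    (Real.exp (-(sSup ((fun x : Fin n → ℝ => ∑ i, x i * y i) '' K)))) with hG
  have hm : Measurable G := by
    have h1 : Continuous fun y : Fin n → ℝ => sSup ((fun x : Fin n → ℝ => ∑ i, x i * y i) '' K) := by
      refine hc.continuous_sSup (f := fun (y x : Fin n → ℝ) => ∑ i, x i * y i) ?_
      show Continuous fun p : (Fin n → ℝ) × (Fin n → ℝ) => ∑ i, p.2 i * p.1 i
      fun_prop
    exact (Real.continuous_exp.comp h1.neg).measurable.ennreal_ofReal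
  have h0 : ∀ y : Fin n → ℝ, ENNReal.ofReal
      (Real.exp (-(sSup ((fun x : Fin n → ℝ => ∑ i, x i * y i) '' (A '' K))))) = G (T y) := by
    intro y
    rw [hG]
    beta_reduce
    rw [Set.image_image]
    have h3 : (fun x : Fin n → ℝ => ∑ i, (A x) i * y i) '' K =
        (fun x : Fin n → ℝ => ∑ i, x i * (T y) i) '' K :=
      Set.image_congr fun x _ =>
        Pool.Agent.H131R5.LC.tr_dot (A : (Fin n → ℝ) →ₗ[ℝ] (Fin n → ℝ)) x y
    rw [h3]
  unfold Pool.Agent.W570.AV.mah
  rw [lintegral_congr h0]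
  have h1 : ∫⁻ y, G (T y) = ENNReal.ofReal |(LinearMap.det T)⁻¹| * ∫⁻ y, G y := by
    rw [← lintegral_map (μ := volume) hm (by
      exact (LinearMap.continuous_of_finiteDimensional T).measurable),
      Real.map_linearMap_volume_pi_eq_smul_volume_pi hdetT, lintegral_smul_measure, smul_eq_mul]
  rw [h1, show (A '' K) = ((A : (Fin n → ℝ) →ₗ[ℝ] (Fin n → ℝ)) '' K) from rfl,
    Measure.addHaar_image_linearMap, hT, Pool.Agent.H131R5.LC.det_tr, abs_inv]
  set d := |LinearMap.det (A : (Fin n → ℝ) →ₗ[ℝ] (Fin n → ℝ))| with hd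
  have hd0 : 0 < d := abs_pos.2 hdet
  have h2 : ENNReal.ofReal d * volume K * (ENNReal.ofReal d⁻¹ * ∫⁻ y, G y) =
      (ENNReal.ofReal d * ENNReal.ofReal d⁻¹) * (volume K * ∫⁻ y, G y) := by
    ring
  rw [h2, ← ENNReal.ofReal_mul hd0.le, mul_inv_cancel₀ hd0.ne', ENNReal.ofReal_one, one_mul]

/-- the value of the minimum -/
def sv (n : ℕ) : ℝ := ((n : ℝ) + 1) ^ (n + 1) / n.factorial

lemma sv_pos : 0 < sv n := by unfold sv; positivity

/-- the arithmetic-geometric mean inequality, case of equality -/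
lemma amgm {m : ℕ} (x : Fin m → ℝ) (hx : ∀ i, 0 < x i) (hs : ∑ i, x i = m)
    (hp : 1 ≤ ∏ i, x i) : ∀ i, x i = 1 := by
  have h1 : ∀ i, 0 ≤ x i - 1 - Real.log (x i) := fun i => by
    have := Real.log_le_sub_one_of_pos (hx i)
    linarith
  have h2 : ∑ i, (x i - 1 - Real.log (x i)) ≤ 0 := by
    rw [Finset.sum_sub_distrib, Finset.sum_sub_distrib, hs, ← Real.log_prod (fun i _ => (hx i).ne')]
    simp only [Finset.sum_const, Finset.card_univ, Fintype.card_fin, nsmul_eq_mul, mul_one]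
    have := Real.log_nonneg hp
    linarith
  intro i
  have h3 : x i - 1 - Real.log (x i) = 0 := by
    have h4 := Finset.single_le_sum (f := fun i => x i - 1 - Real.log (x i)) (fun i _ => h1 i)
      (Finset.mem_univ i)
    exact le_antisymm (h4.trans h2) (h1 i)
  by_contra hne
  have := Real.log_lt_sub_one_of_pos (hx i) hne
  linarith

/-- only the centroid is extremal -/
lemma centroid_of_le {z : Fin n → ℝ} (hz : ∀ i, 0 < z i) (hz1 : ∑ i, z i < 1)
    (h : mah (tr z (sx n 1)) ≤ ENNReal.ofReal (sv n)) : z = Pool.Agent.W570.NQ.cc n := by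
  have h1 := Pool.Agent.W570.AV.mah_sx hz hz1
  have hp : 0 < (1 - ∑ i, z i) * ∏ i, z i :=
    mul_pos (by linarith) (Finset.prod_pos fun i _ => hz i)
  have h2 : (ENNReal.ofReal (sv n))⁻¹ ≤
      ENNReal.ofReal (n.factorial * ((1 - ∑ i, z i) * ∏ i, z i)) := by
    rw [← h1]
    exact ENNReal.inv_le_inv.2 h
  rw [← ENNReal.ofReal_inv_of_pos sv_pos] at h2
  have h3 := (ENNReal.ofReal_le_ofReal_iff (by positivity)).1 h2
  have h4 : ((n : ℝ) + 1) ^ (n + 1) * ((1 - ∑ i, z i) * ∏ i, z i) ≥ 1 := by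
    unfold sv at h3
    rw [inv_div, div_le_iff₀ (by positivity)] at h3
    have hf : (0 : ℝ) < n.factorial := by positivity
    nlinarith
  set x : Fin (n + 1) → ℝ := Fin.cons (((n : ℝ) + 1) * (1 - ∑ i, z i))
    (fun i => ((n : ℝ) + 1) * z i) with hx
  have hxp : ∀ i, 0 < x i := by
    intro i
    refine Fin.cases ?_ (fun j => ?_) i
    · simp only [hx, Fin.cons_zero]
      have : 0 < 1 - ∑ i, z i := by linarith
      positivity
    · simp only [hx, Fin.cons_succ]
      have := hz j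
      positivity
  have hxs : ∑ i, x i = ((n + 1 : ℕ) : ℝ) := by
    rw [Fin.sum_univ_succ]
    simp only [hx, Fin.cons_zero, Fin.cons_succ, ← Finset.mul_sum]
    push_cast
    ring
  have hxq : 1 ≤ ∏ i, x i := by
    rw [Fin.prod_univ_succ]
    simp only [hx, Fin.cons_zero, Fin.cons_succ, Finset.prod_mul_distrib, Finset.prod_const,
      Finset.card_univ, Fintype.card_fin]
    calc (1 : ℝ) ≤ ((n : ℝ) + 1) ^ (n + 1) * ((1 - ∑ i, z i) * ∏ i, z i) := h4
      _ = _ := by rw [pow_succ]; ring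
  have h5 := amgm x hxp hxs hxq
  funext i
  have h6 := h5 i.succ
  simp only [hx, Fin.cons_succ] at h6
  unfold Pool.Agent.W570.NQ.cc
  field_simp
  linarith

lemma mah_Sn : mah (Sn n) = ENNReal.ofReal (sv n) := by
  rw [Sn_eq]
  exact Pool.Agent.W570.NQ.mah_cc

lemma zero_mem_of_ne_top {K : Set (Fin n → ℝ)} (hK : Body K) (h : mah K ≠ ⊤) :
    (0 : Fin n → ℝ) ∈ interior K := by
  by_contra h0
  exact h (Pool.Agent.W570.NQ.mah_top hK.1 hK.2.1 hK.2.2 h0)

/-- interior points of the standard simplex -/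
lemma int_sx {z : Fin n → ℝ} (hz : z ∈ interior (sx n 1)) : (∀ i, 0 < z i) ∧ ∑ i, z i < 1 := by
  obtain ⟨ε, hε, hb⟩ := Metric.isOpen_iff.1 isOpen_interior z hz
  have key : ∀ (i : Fin n) (t : ℝ), |t| < ε → z + Pi.single i t ∈ sx n 1 := by
    intro i t ht
    refine interior_subset (hb ?_)
    rw [Metric.mem_ball, dist_eq_norm, add_sub_cancel_left, Pi.norm_single]
    exact ht
  have hmem : z ∈ sx n 1 := interior_subset hz
  constructor
  · intro i
    have h1 := (key i (-(ε / 2)) (by rw [abs_neg, abs_of_pos (by positivity)]; linarith)).1 i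
    rw [Pi.add_apply, Pi.single_eq_same] at h1
    linarith
  · rcases Nat.eq_zero_or_pos n with rfl | hn
    · simp
    · have h1 := (key ⟨0, hn⟩ (ε / 2) (by rw [abs_of_pos (by positivity)]; linarith)).2
      have h2 : ∑ i, (z + Pi.single ⟨0, hn⟩ (ε / 2) : Fin n → ℝ) i = ∑ i, z i + ε / 2 := by
        simp only [Pi.add_apply, Finset.sum_add_distrib]
        congr 1
        rw [Finset.sum_eq_single (⟨0, hn⟩ : Fin n)]
        · simp
        · intro j _ hj
          simp [hj]
        · simp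
      rw [h2] at h1
      linarith

/-- the inequality -/
lemma low {K : Set (Fin n → ℝ)} (hK : Body K) : ENNReal.ofReal (sv n) ≤ mah K := by
  by_cases h0 : (0 : Fin n → ℝ) ∈ interior K
  · have h1 := Pool.Agent.W570.AV.mah_eq hK.1 hK.2.1 h0
    rw [tr_zero] at h1
    have h2 := Pool.Agent.TH808.MZ_plr hK.2.1 hK.1 h0
    rw [Pool.Agent.TH808.MZ_mah hK.2.1 ⟨0, interior_subset h0⟩, tr_zero] at h2
    rw [h2]
    have h3 := (Pool.Agent.TH537.EQ.mahler hK.2.1 hK.1 h0).1
    have hf : (0 : ℝ) < n.factorial := by positivity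
    calc ENNReal.ofReal (sv n) = ENNReal.ofReal ((n.factorial : ℝ) *
          (((n : ℝ) + 1) ^ (n + 1) / (n.factorial : ℝ) ^ 2)) := by
          congr 1
          unfold sv
          field_simp
      _ ≤ ENNReal.ofReal ((n.factorial : ℝ) *
          (volume.real K * volume.real (Pool.Agent.TH537.EQ.plr K 0))) := by
          apply ENNReal.ofReal_le_ofReal
          gcongr
      _ = (n.factorial : ℝ≥0∞) * (ENNReal.ofReal (volume.real K) *
          ENNReal.ofReal (volume.real (Pool.Agent.TH537.EQ.plr K 0))) := by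
          rw [ENNReal.ofReal_mul hf.le, ENNReal.ofReal_mul measureReal_nonneg,
            ENNReal.ofReal_natCast]
      _ ≤ _ := by
          gcongr
          · exact ENNReal.ofReal_toReal_le
          · exact ENNReal.ofReal_toReal_le
  · rw [Pool.Agent.W570.NQ.mah_top hK.1 hK.2.1 hK.2.2 h0]
    exact le_top

/-- the cases of equality -/
lemma equality {K : Set (Fin n → ℝ)} (hK : Body K) (h : mah K ≤ ENNReal.ofReal (sv n)) :
    ∃ M : (Fin n → ℝ) ≃ₗ[ℝ] (Fin n → ℝ), K = M '' Sn n := by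
  classical
  have h0 : (0 : Fin n → ℝ) ∈ interior K :=
    zero_mem_of_ne_top hK (ne_top_of_le_ne_top ENNReal.ofReal_ne_top h)
  have h2 := Pool.Agent.TH808.MZ_plr hK.2.1 hK.1 h0
  rw [Pool.Agent.TH808.MZ_mah hK.2.1 ⟨0, interior_subset h0⟩, tr_zero] at h2
  have hf : (0 : ℝ) < n.factorial := by positivity
  have h3 : volume.real K * volume.real (Pool.Agent.TH537.EQ.plr K 0) ≤
      ((n : ℝ) + 1) ^ (n + 1) / (n.factorial : ℝ) ^ 2 := by
    have h4 := ENNReal.toReal_mono ENNReal.ofReal_ne_top h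
    rw [h2, ENNReal.toReal_ofReal sv_pos.le, ENNReal.toReal_mul, ENNReal.toReal_mul,
      ENNReal.toReal_natCast] at h4
    have h5 : (n.factorial : ℝ) * (volume.real K * volume.real (Pool.Agent.TH537.EQ.plr K 0)) ≤
        sv n := h4
    unfold sv at h5
    rw [le_div_iff₀ (by positivity)]
    rw [le_div_iff₀ hf] at h5
    nlinarith
  obtain ⟨p, hp, hKp⟩ := (Pool.Agent.TH537.EQ.mahler hK.2.1 hK.1 h0).2 h3
  -- parametrization of the simplex
  set Q : Finset (Fin n → ℝ) := Finset.univ.image p with hQ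
  have hQr : (Q : Set (Fin n → ℝ)) = Set.range p := by
    ext x; simp [hQ]
  have hcard : Q.card ≤ n + 1 := Finset.card_image_le.trans (by simp)
  have hKQ : K = convexHull ℝ (Q : Set (Fin n → ℝ)) := by rw [hQr]; exact hKp
  obtain ⟨M, x0, hM⟩ := Pool.Agent.W679.B.simplex_param Q hcard (hKQ ▸ hK.2.2)
  set z : Fin n → ℝ := -(M.symm x0) with hz
  have e1 : K = M '' tr z (Sn n) := by
    rw [hKQ, hM]
    unfold Pool.Agent.W570.AV.tr
    rw [Set.image_image]
    refine Set.image_congr fun c _ => ?_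
    rw [hz, map_sub, map_neg, M.apply_symm_apply]
    abel
  have hSc : IsCompact (Sn n) := by
    rw [Sn_eq]
    exact (Pool.Agent.W570.AV.sx_comp 1 zero_le_one).image (by fun_prop)
  have e2 : tr z (Sn n) = tr (Pool.Agent.W570.NQ.cc n + z) (sx n 1) := by
    rw [Sn_eq]
    unfold Pool.Agent.W570.AV.tr
    rw [Set.image_image]
    refine Set.image_congr fun c _ => ?_
    abel
  have h4 : mah (tr (Pool.Agent.W570.NQ.cc n + z) (sx n 1)) ≤ ENNReal.ofReal (sv n) := by
    have hc1 : IsCompact (tr z (Sn n)) := by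
      unfold Pool.Agent.W570.AV.tr
      exact hSc.image (by fun_prop)
    have h7 := mah_image M hc1
    rw [← e1, e2] at h7
    rw [← h7]
    exact h
  -- the centre is an interior point
  have h5 : Pool.Agent.W570.NQ.cc n + z ∈ interior (sx n 1) := by
    have hb : Body (tr (Pool.Agent.W570.NQ.cc n + z) (sx n 1)) := by
      refine body_tr ⟨Pool.Agent.W570.AV.sx_conv 1, Pool.Agent.W570.AV.sx_comp 1 zero_le_one, ?_⟩ _
      have hi : (interior (M '' tr z (Sn n))).Nonempty := e1 ▸ hK.2.2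
      have h6 : M '' interior (tr z (Sn n)) = interior (M '' tr z (Sn n)) :=
        (M.toContinuousLinearEquiv.toHomeomorph).image_interior _
      rw [← h6, Set.image_nonempty, e2, Pool.Agent.TH808.tr_interior] at hi
      exact Set.image_nonempty.1 hi
    have h7 := zero_mem_of_ne_top hb (ne_top_of_le_ne_top ENNReal.ofReal_ne_top h4)
    rwa [Pool.Agent.TH808.tr_interior, Pool.Agent.TH808.zero_mem_tr] at h7
  obtain ⟨h8, h9⟩ := int_sx h5
  have h10 := centroid_of_le h8 h9 h4
  have h11 : z = 0 := by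
    have := congrArg (fun w => w - Pool.Agent.W570.NQ.cc n) h10
    simpa using this
  refine ⟨M, ?_⟩
  rw [e1, h11, tr_zero]

lemma Sn_compact : IsCompact (Sn n) := by
  rw [Sn_eq]
  exact (Pool.Agent.W570.AV.sx_comp 1 zero_le_one).image (by fun_prop)

/-- the equality cases, in terms of the vertices -/
lemma eq_iff {K : Set (Fin n → ℝ)} (hK : Body K) :
    mah K = ENNReal.ofReal (sv n) ↔ SimplexWithCentroid K 0 := by
  have h1 := Pool.Agent.TH649.LOC.centred_iff K
  have h2 : SimplexWithCentroid K 0 ↔ ∃ M : (Fin n → ℝ) ≃ₗ[ℝ] (Fin n → ℝ), K = M '' Sn n := by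
    rw [h1]
    unfold SimplexWithCentroid
    simp only [smul_zero]
  rw [h2]
  constructor
  · intro h
    exact equality hK h.le
  · rintro ⟨M, rfl⟩
    rw [mah_image M Sn_compact, mah_Sn]

lemma body_simplex : Body (simplex n) := by
  refine ⟨Pool.Agent.W570.AV.sx_conv 1, Pool.Agent.W570.AV.sx_comp 1 zero_le_one, ?_⟩
  refine ⟨Pool.Agent.W570.NQ.cc n, ?_⟩
  have hopen : IsOpen {z : Fin n → ℝ | (∀ i, 0 < z i) ∧ ∑ i, z i < 1} := by
    have : {z : Fin n → ℝ | (∀ i, 0 < z i) ∧ ∑ i, z i < 1} =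
        (⋂ i, {z : Fin n → ℝ | 0 < z i}) ∩ {z | ∑ i, z i < 1} := by
      ext z; simp
    rw [this]
    refine IsOpen.inter (isOpen_iInter_of_finite fun i => isOpen_lt (by fun_prop) (by fun_prop)) ?_
    exact isOpen_lt (by fun_prop) (by fun_prop)
  exact interior_maximal (fun z hz => ⟨fun i => (hz.1 i).le, hz.2.le⟩ :
    {z : Fin n → ℝ | (∀ i, 0 < z i) ∧ ∑ i, z i < 1} ⊆ simplex n) hopen
    ⟨fun i => Pool.Agent.W570.NQ.cc_pos i, Pool.Agent.W570.NQ.cc_sum_lt⟩

/-- the value of the infimum -/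
lemma simplexInf_eq : simplexInf n = ENNReal.ofReal (sv n) := by
  apply le_antisymm
  · have h2 := iInf₂_le (f := fun (x : Fin n → ℝ) (_ : x ∈ simplex n) =>
      mahlerInf ((fun z : Fin n → ℝ => z - x) '' simplex n))
      _ (Pool.Agent.W570.NQ.cc_mem (n := n))
    refine h2.trans (le_of_eq ?_)
    exact Pool.Agent.W570.NQ.mah_cc
  · exact le_iInf₂ fun x _ => low (body_tr body_simplex x)

/-- `mah` of a translate in terms of the polar body -/
lemma mah_tr {K : Set (Fin n → ℝ)} (hK : Body K) {z : Fin n → ℝ} (hz : z ∈ interior K) :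
    mah (tr z K) = (n.factorial : ℝ≥0∞) * (volume K * volume (polarBody K z)) := by
  rw [← Pool.Agent.TH808.MZ_mah hK.2.1 ⟨z, interior_subset hz⟩,
    Pool.Agent.TH808.MZ_plr hK.2.1 hK.1 hz]
  rfl

lemma ofReal_sv : ENNReal.ofReal (sv n) = (n.factorial : ℝ≥0∞) *
    ENNReal.ofReal (((n : ℝ) + 1) ^ (n + 1) / (n.factorial : ℝ) ^ 2) := by
  rw [← ENNReal.ofReal_natCast, ← ENNReal.ofReal_mul (by positivity)]
  congr 1
  unfold sv
  have hf : (0 : ℝ) < n.factorial := by positivity
  field_simp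

/-- centroids and translates -/
lemma centroid_tr {K : Set (Fin n → ℝ)} (z : Fin n → ℝ) :
    SimplexWithCentroid (tr z K) 0 ↔ SimplexWithCentroid K z := by
  have key : ∀ (L : Set (Fin n → ℝ)) (a b : Fin n → ℝ), SimplexWithCentroid L a →
      SimplexWithCentroid ((fun x => x + b) '' L) (a + b) := by
    rintro L a b ⟨v, hv, hs, rfl⟩
    refine ⟨fun i => v i + b, ?_, ?_, ?_⟩
    · exact hv.map' (AffineEquiv.vaddConst ℝ b : (Fin n → ℝ) ≃ᵃ[ℝ] (Fin n → ℝ)).toAffineMap
        (AffineEquiv.vaddConst ℝ b : (Fin n → ℝ) ≃ᵃ[ℝ] (Fin n → ℝ)).injective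
    · rw [Finset.sum_add_distrib, hs, smul_add]
      congr 1
      simp only [Finset.sum_const, Finset.card_univ, Fintype.card_fin]
      rw [← Nat.cast_smul_eq_nsmul ℝ]
      push_cast
      rfl
    · have h4 : (fun x : Fin n → ℝ => x + b) '' convexHull ℝ (Set.range v) =
          convexHull ℝ ((fun x : Fin n → ℝ => x + b) '' Set.range v) :=
        (AffineMap.image_convexHull
          ((AffineEquiv.vaddConst ℝ b : (Fin n → ℝ) ≃ᵃ[ℝ] (Fin n → ℝ)).toAffineMap) (Set.range v))
      rw [h4, ← Set.range_comp]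
      rfl
  constructor
  · intro h
    have h1 := key _ _ z h
    have h2 : (fun x => x + z) '' tr z K = K := by
      unfold Pool.Agent.W570.AV.tr
      rw [Set.image_image]
      simp
    rwa [h2, zero_add] at h1
  · intro h
    have h1 := key _ _ (-z) h
    have h2 : (fun x => x + -z) '' K = tr z K := by
      unfold Pool.Agent.W570.AV.tr
      refine Set.image_congr fun x _ => ?_
      rw [sub_eq_add_neg]
    rwa [h2, add_neg_cancel] at h1

/-- **The classical Mahler conjecture for all convex bodies (the case `p = ∞`), with the cases of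
equality.** -/
theorem result :
    -- Q1 for `p = ∞`, with the cases of equality and the value of the minimum
    (∀ (n : ℕ) (K : Set (Fin n → ℝ)), Body K →
      simplexInf n ≤ mahlerInf K ∧
      (mahlerInf K = simplexInf n ↔ SimplexWithCentroid K 0)) ∧
    (∀ n : ℕ, simplexInf n = ENNReal.ofReal (((n : ℝ) + 1) ^ (n + 1) / n.factorial)) ∧
    -- the same in terms of the polar bodies
    (∀ (n : ℕ) (K : Set (Fin n → ℝ)), Body K → ∀ z ∈ interior K,
      ENNReal.ofReal (((n : ℝ) + 1) ^ (n + 1) / (n.factorial : ℝ) ^ 2) ≤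
        volume K * volume (polarBody K z) ∧
      (volume K * volume (polarBody K z) =
        ENNReal.ofReal (((n : ℝ) + 1) ^ (n + 1) / (n.factorial : ℝ) ^ 2) ↔
          SimplexWithCentroid K z)) := by
  refine ⟨fun n K hK => ?_, fun n => simplexInf_eq, fun n K hK z hz => ?_⟩
  · rw [simplexInf_eq, mahlerInf_eq]
    exact ⟨low hK, eq_iff hK⟩
  · have h1 := mah_tr hK hz
    have h2 := low (body_tr hK z)
    have h3 := eq_iff (body_tr hK z)
    rw [h1, ofReal_sv] at h2 h3
    have hf0 : (n.factorial : ℝ≥0∞) ≠ 0 := by exact_mod_cast n.factorial_ne_zero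
    have hft : (n.factorial : ℝ≥0∞) ≠ ⊤ := ENNReal.natCast_ne_top _
    refine ⟨(ENNReal.mul_le_mul_iff_right hf0 hft).1 h2, ?_⟩
    rw [← centroid_tr, ← h3, ENNReal.mul_right_inj hf0 hft]

end Pool.Agent.Results.MP_5f4cdd_gt.ClassicalMahlerEquality
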