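import Pool.Agent.X166.NF.E

/-!
# The non-symmetric Mahler inequality for log-concave functions

For every `n` and every log-concave function `f : ℝⁿ → [0, ∞)` with `0 < ∫ f < ∞` (no symmetry, any
position), `(∫ f) (∫ f°) ≥ eⁿ`, where `f°(y) = inf_x e^{-⟨x, y⟩} / f(x)`.  The constant is attained for
every `n`.  If the origin is not an interior point of the support of `f`, then `∫ f° = ∞`.

Proof: the case `p = ∞` of Q1 (Mahler's inequality for all convex bodies, the starting file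
`Pool.Agent.TH537.EQ.Main`), used in dimension `n + N` for the bodies
`{(x, y) : y ∈ (1 + (log f(x)) / N) S_N}`, `S_N` a simplex with centroid `0`, `N → ∞`.
-/

set_option autoImplicit false

noncomputable section

open MeasureTheory
open scoped ENNReal

namespace Pool.Agent.Results.MP_5f4cdd_gt.FunctionalMahler

/-- log-concave functions `f : ℝⁿ → [0, ∞)` -/
def IsLogConcave {n : ℕ} (f : (Fin n → ℝ) → ℝ) : Prop :=
  (∀ x, 0 ≤ f x) ∧ ∀ x y : Fin n → ℝ, ∀ a b : ℝ, 0 < a → 0 < b → a + b = 1 →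
    f x ^ a * f y ^ b ≤ f (a • x + b • y)

/-- the polar function `f°(y) = inf_x e^{-⟨x, y⟩} / f(x)` (where `e^{-⟨x, y⟩} / 0 = ∞`) -/
def polarFunction {n : ℕ} (f : (Fin n → ℝ) → ℝ) (y : Fin n → ℝ) : ℝ≥0∞ :=
  ⨅ x : Fin n → ℝ, ENNReal.ofReal (Real.exp (-(∑ i, x i * y i))) / ENNReal.ofReal (f x)

/-- the function `e^{-(x_1 + … + x_n)}` on the set `x_1, …, x_n ≥ -1`, and `0` elsewhere -/
def orthantExp (n : ℕ) (x : Fin n → ℝ) : ℝ :=
  ∏ i, (Set.Ici (-1 : ℝ)).indicator (fun s => Real.exp (-s)) (x i)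

/-- **The non-symmetric Mahler inequality for all log-concave functions.** -/
theorem result :
    -- the inequality, in every position
    (∀ (n : ℕ) (f : (Fin n → ℝ) → ℝ), IsLogConcave f →
      0 < ∫⁻ x, ENNReal.ofReal (f x) → ∫⁻ x, ENNReal.ofReal (f x) < ⊤ →
      ENNReal.ofReal (Real.exp n) ≤
        (∫⁻ x, ENNReal.ofReal (f x)) * ∫⁻ y, polarFunction f y) ∧
    -- the positions in which the product is infinite
    (∀ (n : ℕ) (f : (Fin n → ℝ) → ℝ), IsLogConcave f →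
      0 < ∫⁻ x, ENNReal.ofReal (f x) → ∫⁻ x, ENNReal.ofReal (f x) < ⊤ →
      (0 : Fin n → ℝ) ∉ interior {x | 0 < f x} → ∫⁻ y, polarFunction f y = ⊤) ∧
    -- the constant is attained in every dimension
    (∀ n : ℕ, IsLogConcave (orthantExp n) ∧
      ∫⁻ x, ENNReal.ofReal (orthantExp n x) = ENNReal.ofReal (Real.exp n) ∧
      (∫⁻ x, ENNReal.ofReal (orthantExp n x)) * ∫⁻ y, polarFunction (orthantExp n) y =
        ENNReal.ofReal (Real.exp n)) :=
  ⟨fun _ _ h h0 h1 => X166.NF.functional ⟨h.1, h.2⟩ h0.ne' h1.ne,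
    fun _ _ h h0 h1 hz => X166.NF.polf_top ⟨h.1, h.2⟩ h0.ne' h1.ne hz,
    fun n => ⟨⟨(X166.NF.ex_LC n).nonneg, (X166.NF.ex_LC n).lc⟩, X166.NF.ex_int n,
      X166.NF.sharp n⟩⟩

end Pool.Agent.Results.MP_5f4cdd_gt.FunctionalMahler
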