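import Pool.Agent.X166.NS.D
import Pool.Agent.W570.NQ.L2

/-!
# Linear stability of the non-symmetric `L^p`-Mahler inequality, `p = ∞` and all large `p`

For every `n ≥ 2` there is `c > 0` such that every convex body `K` of `ℝⁿ`, in every position, which
is not `t`-near to a simplex (`0 < t ≤ 1`) has `M_∞(K) ≥ (1 + c t) (n+1)^(n+1) / n!`.  For every
`θ > 0` there are `c, p₀ > 0` such that for all real `p ≥ p₀` and all `t ∈ [θ/p, 1]` every convex body
`K` which is not `t`-near to a simplex has `M_p(K) ≥ (1 + c t) inf_x M_p(Δ_n - x)`.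

Here `K` is `t`-near to a simplex if `K ⊆ S ⊆ c + (1 + t) (K - c)` for a simplex `S` and a point `c`
of `K`.
-/

set_option autoImplicit false

noncomputable section

open MeasureTheory
open scoped ENNReal Pointwise

namespace Pool.Agent.Results.MP_5f4cdd_gt.LinearStability

/-- convex bodies in `ℝⁿ` (in any position) -/
def Body {n : ℕ} (K : Set (Fin n → ℝ)) : Prop := Convex ℝ K ∧ IsCompact K ∧ (interior K).Nonempty

/-- The `L^p`-Mahler volume `M_p(K) = vol(K) ∫ exp(-h_{p,K}(y)) dy` for `0 < p < ∞`, where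
`exp(-h_{p,K}(y)) = ((1/vol K) ∫_K exp(p⟨x,y⟩) dx)^(-1/p)`. -/
def mahlerVolume {n : ℕ} (p : ℝ) (K : Set (Fin n → ℝ)) : ℝ≥0∞ :=
  volume K * ∫⁻ y : Fin n → ℝ, ENNReal.ofReal
    (((∫ x in K, Real.exp (p * ∑ i, x i * y i)) / (volume K).toReal) ^ (-(1 / p)))

/-- The classical Mahler volume `M_∞(K) = vol(K) ∫ exp(-h_K(y)) dy` (the case `p = ∞`), where
`h_K(y) = sup_{x ∈ K} ⟨x, y⟩`. -/
def mahlerInf {n : ℕ} (K : Set (Fin n → ℝ)) : ℝ≥0∞ :=
  volume K * ∫⁻ y : Fin n → ℝ, ENNReal.ofReal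
    (Real.exp (-(sSup ((fun x : Fin n → ℝ => ∑ i, x i * y i) '' K))))

/-- the standard simplex `Δ_n` -/
def simplex (n : ℕ) : Set (Fin n → ℝ) := {z | (∀ i, 0 ≤ z i) ∧ ∑ i, z i ≤ 1}

/-- the infimum of `M_p(Δ_n - x)` over `x ∈ Δ_n` -/
def simplexInf (n : ℕ) (p : ℝ) : ℝ≥0∞ :=
  ⨅ x ∈ simplex n, mahlerVolume p ((fun z : Fin n → ℝ => z - x) '' simplex n)

/-- `K` is `t`-near to a simplex: there are `n + 1` points `v_i` and a point `c ∈ K` such that
`K` lies in the convex hull of the `v_i` and all `v_i` lie in `c + (1 + t) (K - c)` -/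
def NearSimplex {n : ℕ} (t : ℝ) (K : Set (Fin n → ℝ)) : Prop :=
  ∃ (v : Fin (n + 1) → (Fin n → ℝ)) (c : Fin n → ℝ), c ∈ K ∧
    K ⊆ convexHull ℝ (Set.range v) ∧ ∀ i, v i ∈ (fun x => c + (1 + t) • (x - c)) '' K

/-- the value of the infimum is the value at the centroid -/
lemma infp_eq {n : ℕ} {p : ℝ} (hp : 0 < p) :
    simplexInf n p = Pool.Agent.H131R5.LM.Mp p (Pool.Agent.H131R5.LM.Sn n) := by
  apply le_antisymm
  · have h2 := iInf₂_le (f := fun (x : Fin n → ℝ) (_ : x ∈ simplex n) =>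
      mahlerVolume p ((fun z : Fin n → ℝ => z - x) '' simplex n))
      _ (Pool.Agent.H131R5.LM.center_mem (n := n))
    rw [← Pool.Agent.H131R5.LM.image_Dn]
    exact h2
  · refine le_iInf₂ fun x _ => ?_
    have h := Pool.Agent.TH649.LOC.Mp_shift_le (n := n) hp (x - fun _ => 1 / ((n:ℝ) + 1))
    have e : (fun y : Fin n → ℝ => y - (x - fun _ => 1 / ((n:ℝ) + 1))) ''
        Pool.Agent.H131R5.LM.Sn n = (fun z : Fin n → ℝ => z - x) '' simplex n := by
      rw [← Pool.Agent.H131R5.LM.image_Dn, Set.image_image]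
      refine Set.image_congr fun z _ => ?_
      abel
    rw [e] at h
    exact h

/-- `(n+1)^(n+1) / n! ≤ M_p` of the centred simplex -/
lemma sv_le {n : ℕ} {p : ℝ} (hp : 0 < p) :
    ENNReal.ofReal (((n : ℝ) + 1) ^ (n + 1) / n.factorial) ≤
      Pool.Agent.H131R5.LM.Mp p (Pool.Agent.H131R5.LM.Sn n) := by
  have hNB := Pool.Agent.H131R5.LM.NB_Sn (n := n)
  have hv : volume (Pool.Agent.H131R5.LM.Sn n) ≠ 0 :=
    ((isOpen_interior.measure_pos volume ⟨0, hNB.zero⟩).trans_le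
      (measure_mono interior_subset)).ne'
  have h1 := Pool.Agent.W570.NQ.mah_le_mahp hNB.comp hv hp
  refine le_trans (le_of_eq ?_) h1
  have e : Pool.Agent.H131R5.LM.Sn n =
      Pool.Agent.W570.AV.tr (Pool.Agent.W570.NQ.cc n) (Pool.Agent.W570.AV.sx n 1) :=
    (Pool.Agent.H131R5.LM.image_Dn (n := n)).symm
  rw [e, Pool.Agent.W570.NQ.mah_cc]

/-- **Linear stability of the non-symmetric `L^p`-Mahler inequality, for `p = ∞` and for all large
finite `p`.** -/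
theorem result (n : ℕ) (hn : 2 ≤ n) :
    -- `p = ∞`
    (∃ c : ℝ, 0 < c ∧ ∀ K : Set (Fin n → ℝ), Body K → ∀ t : ℝ, 0 < t → t ≤ 1 →
      ¬ NearSimplex t K →
        ENNReal.ofReal ((1 + c * t) * (((n : ℝ) + 1) ^ (n + 1) / n.factorial)) ≤ mahlerInf K) ∧
    -- all large `p`
    (∀ θ : ℝ, 0 < θ → ∃ c p₀ : ℝ, 0 < c ∧ 0 < p₀ ∧ ∀ p : ℝ, p₀ ≤ p →
      ∀ K : Set (Fin n → ℝ), Body K → ∀ t : ℝ, θ / p ≤ t → t ≤ 1 → ¬ NearSimplex t K →
        ENNReal.ofReal (1 + c * t) * simplexInf n p ≤ mahlerVolume p K) := by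
  obtain ⟨m, rfl⟩ : ∃ m, n = m + 1 := ⟨n - 1, by omega⟩
  have hm : 1 ≤ m := by omega
  refine ⟨?_, fun θ hθ => ?_⟩
  · obtain ⟨c, p0, hc, hp0, h⟩ := X166.NS.stab hm (θ := 1) one_pos
    refine ⟨c, hc, fun K hK t ht ht1 hnear => ?_⟩
    by_cases h0 : (0 : Fin (m + 1) → ℝ) ∈ interior K
    · refine X166.NS.to_inf (p0 := max p0 (1 / t)) hK.2.1 hK.1 h0 fun p hp => ?_
      have hp1 : p0 ≤ p := (le_max_left _ _).trans hp
      have hpp : 0 < p := lt_of_lt_of_le hp0 hp1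
      have hpt : 1 / p ≤ t := by
        have := (le_max_right _ _).trans hp
        rw [div_le_iff₀ ht] at this
        rw [div_le_iff₀ hpp]
        linarith
      have h1 := h p hp1 K hK.2.1 hK.1 hK.2.2 t hpt ht1 hnear
      refine le_trans ?_ h1
      rw [ENNReal.ofReal_mul (by positivity)]
      exact mul_le_mul_right (sv_le hpp) _
    · have : mahlerInf K = ⊤ := Pool.Agent.W570.NQ.mah_top hK.1 hK.2.1 hK.2.2 h0
      rw [this]
      exact le_top
  · obtain ⟨c, p0, hc, hp0, h⟩ := X166.NS.stab hm hθ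
    refine ⟨c, p0, hc, hp0, fun p hp K hK t ht ht1 hnear => ?_⟩
    rw [infp_eq (lt_of_lt_of_le hp0 hp)]
    exact h p hp K hK.2.1 hK.1 hK.2.2 t ht ht1 hnear

end Pool.Agent.Results.MP_5f4cdd_gt.LinearStability
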